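import Pool.Agent.helper33.PG.Spec

/-! # Project PG, row MID -/

namespace Pool.Agent.PG

open Polynomial Finset

theorem MID (hFDZ : FDZ_stmt) (hCOF : COF_stmt) : MID_stmt := by
  intro q a b j haj hjq
  set h : ℤ[X] := (ascPochhammer ℤ b).comp (X + 1) * (descPochhammer ℤ a).comp (C ((q : ℤ) - 1) - X)
    with hh
  have hval : ∀ x : ℤ, h.eval x =
      (ascPochhammer ℤ b).eval (x + 1) * (descPochhammer ℤ a).eval ((q : ℤ) - 1 - x) := by
    intro x
    rw [hh, eval_mul, eval_comp, eval_comp, eval_add, eval_X, eval_one, eval_sub, eval_C, eval_X]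
  have hdeg : h.degree < ((a + b + 1 : ℕ) : WithBot ℕ) := by
    have h1 : h.natDegree ≤ b * 1 + a * 1 := by
      rw [hh]
      refine natDegree_mul_le.trans (add_le_add ?_ ?_)
      · refine natDegree_comp_le.trans ?_
        rw [ascPochhammer_natDegree]
        refine Nat.mul_le_mul_left _ ?_
        exact natDegree_add_le_of_degree_le natDegree_X_le (by simp)
      · refine natDegree_comp_le.trans ?_
        rw [descPochhammer_natDegree]
        refine Nat.mul_le_mul_left _ ?_
        exact (natDegree_sub_le _ _).trans (max_le (by rw [natDegree_C]; omega) natDegree_X_le)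
    refine degree_le_natDegree.trans_lt ?_
    exact_mod_cast (by omega : h.natDegree < a + b + 1)
  have h0 := hFDZ (a + b + 1) h hdeg (j : ℤ)
  have hnat : ∀ t : ℕ, t < q → h.eval (t : ℤ) = ((a.factorial * b.factorial : ℕ) : ℤ) * gco q a b t := by
    intro t ht
    rw [hval]
    have e1 : (ascPochhammer ℤ b).eval ((t : ℤ) + 1) = ((b.factorial * (b + t).choose b : ℕ) : ℤ) := by
      have h1 : ((t : ℤ) + 1) = ((t + 1 : ℕ) : ℤ) := by push_cast; ring
      rw [h1, ← ascPochhammer_eval_cast, ascPochhammer_nat_eq_ascFactorial,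
        Nat.ascFactorial_eq_factorial_mul_choose, add_comm t b]
    have e2 : (descPochhammer ℤ a).eval ((q : ℤ) - 1 - t) =
        ((a.factorial * (q - 1 - t).choose a : ℕ) : ℤ) := by
      have h1 : ((q : ℤ) - 1 - t) = ((q - 1 - t : ℕ) : ℤ) := by omega
      rw [h1, descPochhammer_eval_eq_descFactorial, Nat.descFactorial_eq_factorial_mul_choose]
    rw [e1, e2, gco]
    push_cast
    ring
  have hneg : ∀ i : ℕ, 1 ≤ i → i ≤ b → h.eval (-(i : ℤ)) = 0 := by
    intro i hi1 hib
    rw [hval]
    have h1 : -(i : ℤ) + 1 = -((i - 1 : ℕ) : ℤ) := by omega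
    rw [h1, ascPochhammer_eval_neg_coe_nat_of_lt (by omega : i - 1 < b), zero_mul]
  have h1 : ((a.factorial * b.factorial : ℕ) : ℤ) * (S q a b).coeff j = 0 := by
    rw [hCOF, Finset.mul_sum]
    refine Eq.trans (Finset.sum_congr rfl fun i hi => ?_) h0
    rw [Finset.mem_range] at hi
    by_cases hij : i ≤ j
    · have e3 : ((j : ℤ) - (i : ℤ)) = ((j - i : ℕ) : ℤ) := by omega
      rw [e3, hnat (j - i) (by omega)]
      by_cases hc : j - i < q - a
      · rw [if_pos ⟨hij, hc⟩]
        ring
      · rw [if_neg (fun hh => hc hh.2)]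
        have e4 : gco q a b (j - i) = 0 := by
          rw [gco, Nat.choose_eq_zero_of_lt (by omega : q - 1 - (j - i) < a)]
          simp
        rw [e4]
        ring
    · rw [if_neg (fun hh => hij hh.1)]
      have e3 : ((j : ℤ) - (i : ℤ)) = -((i - j : ℕ) : ℤ) := by omega
      rw [e3, hneg (i - j) (by omega) (by omega)]
      ring
  have h2 : ((a.factorial * b.factorial : ℕ) : ℤ) ≠ 0 := by
    exact_mod_cast (Nat.mul_pos (Nat.factorial_pos a) (Nat.factorial_pos b)).ne'
  exact (mul_eq_zero.1 h1).resolve_left h2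

end Pool.Agent.PG
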